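import Pool.Agent.Y972.SQ.Main

/-!
Colourings: the rationals split into infinitely many dense pieces, every linear order containing a
copy of the rationals carries a rich colouring, the reals split into continuum many dense cosets.
Then the splitting form of diamond.
-/

namespace Pool.Agent.Y972.SQ

open Ordinal Pool.Agent.H883R3

universe u v

/-- A colouring of the rationals with infinitely many dense colour classes. -/
noncomputable def qcol (q : ℚ) : ℕ := (-(padicValRat 2 q)).toNat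

theorem qcol_dense (a b : ℚ) (h : a < b) (n : ℕ) : ∃ x, a < x ∧ x < b ∧ qcol x = n := by
  obtain ⟨m, hm⟩ := exists_nat_gt (2 / (b - a))
  have hba : 0 < b - a := sub_pos.2 h
  set N : ℚ := 2 ^ n * 3 ^ m with hN
  have hNpos : 0 < N := by positivity
  have h3 : (m : ℚ) < 3 ^ m := by exact_mod_cast Nat.lt_pow_self (by norm_num)
  have hNm : (m : ℚ) < N := by
    have h2 : (1 : ℚ) ≤ 2 ^ n := one_le_pow₀ (by norm_num)
    calc (m : ℚ) < 3 ^ m := h3
      _ ≤ 2 ^ n * 3 ^ m := le_mul_of_one_le_left (by positivity) h2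
  have hgap : 2 < (b - a) * N := by
    have h5 : 2 / (b - a) < N := hm.trans hNm
    rw [div_lt_iff₀ hba] at h5
    linarith
  set k : ℤ := ⌊(a * N - 1) / 2⌋ + 1 with hk
  have hk1 : (a * N - 1) / 2 < k := by
    rw [hk]; push_cast; exact Int.lt_floor_add_one _
  have hk2 : (k : ℚ) ≤ (a * N - 1) / 2 + 1 := by
    rw [hk]; push_cast
    have := Int.floor_le ((a * N - 1) / 2)
    linarith
  refine ⟨(2 * k + 1 : ℤ) / N, ?_, ?_, ?_⟩
  · rw [lt_div_iff₀ hNpos]
    push_cast
    linarith
  · rw [div_lt_iff₀ hNpos]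
    push_cast
    linarith
  · have hodd : ((2 * k + 1 : ℤ) : ℚ) ≠ 0 := by
      have : (2 * k + 1 : ℤ) ≠ 0 := by omega
      exact_mod_cast this
    have hv1 : padicValRat 2 ((2 * k + 1 : ℤ) : ℚ) = 0 := by
      rw [padicValRat.of_int]
      have : padicValInt 2 (2 * k + 1) = 0 := by
        apply padicValInt.eq_zero_of_not_dvd
        intro hd
        have : (2 : ℤ) ∣ 2 * k + 1 := by exact_mod_cast hd
        omega
      simp [this]
    have hv2 : padicValRat 2 N = n := by
      have h2 : padicValRat 2 (2 : ℚ) = 1 := by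
        have := padicValRat.self (p := 2) (by norm_num)
        simpa using this
      have h3' : padicValRat 2 (3 : ℚ) = 0 := by
        have h4 : padicValRat 2 ((3 : ℕ) : ℚ) = (padicValNat 2 3 : ℤ) := padicValRat.of_nat
        have h5 : padicValNat 2 3 = 0 := padicValNat.eq_zero_of_not_dvd (by norm_num)
        rw [h5] at h4
        simpa using h4
      have h6 : padicValRat 2 ((2 : ℚ) ^ n) = n * padicValRat 2 (2 : ℚ) :=
        padicValRat.pow (p := 2) (2 : ℚ)
      have h7 : padicValRat 2 ((3 : ℚ) ^ m) = m * padicValRat 2 (3 : ℚ) :=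
        padicValRat.pow (p := 2) (3 : ℚ)
      rw [hN, padicValRat.mul (by positivity) (by positivity), h6, h7, h2, h3']
      simp
    unfold qcol
    rw [padicValRat.div hodd hNpos.ne', hv1, hv2]
    simp

/-- A linear order containing a copy of the rationals carries a rich colouring with infinitely
many colours. -/
theorem exists_rich {L : Type} [LinearOrder L] (ι : ℚ ↪o L) :
    ∃ (D : Set L) (c : L → ℕ), Rich D c := by
  classical
  refine ⟨Set.range ι, fun x => if h : ∃ q, ι q = x then qcol h.choose else 0, ?_, ?_⟩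
  · exact ⟨ι 0, ⟨0, rfl⟩, ι 1, ⟨1, rfl⟩, ι.lt_iff_lt.2 one_pos⟩
  · rintro _ ⟨a, rfl⟩ _ ⟨b, rfl⟩ hab n
    obtain ⟨x, h1, h2, h3⟩ := qcol_dense a b (ι.lt_iff_lt.1 hab) n
    refine ⟨ι x, ⟨x, rfl⟩, ι.lt_iff_lt.2 h1, ι.lt_iff_lt.2 h2, ?_⟩
    have h : ∃ q, ι q = ι x := ⟨x, rfl⟩
    have h4 : h.choose = x := ι.injective h.choose_spec
    simp only [h, dif_pos]
    rw [h4]
    exact h3

/-- The cosets of the rationals in the reals. -/
abbrev RealCosets : Type := ℝ ⧸ (Rat.castHom ℝ).toAddMonoidHom.range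

theorem real_rich : Rich (Set.univ : Set ℝ) (fun x => (QuotientAddGroup.mk x : RealCosets)) := by
  refine ⟨⟨0, trivial, 1, trivial, one_pos⟩, ?_⟩
  intro a _ b _ hab i
  obtain ⟨y, rfl⟩ := QuotientAddGroup.mk_surjective i
  obtain ⟨q, h1, h2⟩ := exists_rat_btwn (sub_lt_sub_right hab y)
  refine ⟨y + q, trivial, by linarith, by linarith, ?_⟩
  rw [QuotientAddGroup.eq]
  refine ⟨-q, ?_⟩
  simp

/-- A successor-partition is strongly nice: every selected subtree exists, is unique, and is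
positive on every stationary set of levels. -/
def StronglyNice {L : Type} [LinearOrder L] {I : Type v} (P : Partn (Sig L) I) : Prop :=
  ∀ f : Sig L → I, ∃ S : Set (Sig L), IsSel P f S ∧ (∀ S', IsSel P f S' → S' = S) ∧
    ¬ IsSpecial S ∧
    ∀ E : Set (Set.Iio (ω₁ : Ordinal.{0})), IsStationary E →
      ¬ IsNonstationary {t | t ∈ S ∧ lev t ∈ E}

theorem nonstationary_of_special {L : Type} [LinearOrder L] [Nonempty L] {X : Set (Sig L)}
    (h : IsSpecial X) : IsNonstationary X := by
  refine ⟨fun _ => Sig.empty L, ?_, fun t => h.mono (fun x hx => hx.1)⟩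
  intro x _ hx
  refine lt_of_le_of_ne ?_ ?_
  · exact ⟨zero_le, fun y hy => absurd (show y < 0 from hy) not_lt_zero⟩
  · intro he
    rw [← he] at hx
    exact hx Sig.isMin_empty

theorem stronglyNice {L : Type} [LinearOrder L] {I : Type v} {D : Set L} {c : L → I}
    (hc : Rich D c) : StronglyNice (colPart c) := by
  intro f
  have hS := isSel_sel (colPart c) f
  refine ⟨sel (colPart c) f, hS, fun S' hS' => isSel_unique _ _ hS hS', ?_,
    fun E hE => not_nonstationary hc hS E hE⟩
  intro hsp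
  obtain ⟨a, -⟩ := hc.1
  have : Nonempty L := ⟨a⟩
  have : Nonempty (Set.Iio (ω₁ : Ordinal.{0})) := ⟨⟨0, Ordinal.omega_pos 1⟩⟩
  refine not_nonstationary hc hS Set.univ (isStationary_univ_iff.2 this) ?_
  exact nonstationary_of_special (hsp.mono (fun x hx => hx.1))

theorem stationary_inter {E : Set (Set.Iio (ω₁ : Ordinal.{0}))} (hE : IsStationary E)
    (x : Set.Iio (ω₁ : Ordinal.{0})) : IsStationary {δ | δ ∈ E ∧ x ≤ δ} := by
  intro C hC
  have hC' : IsClub {δ | δ ∈ C ∧ x ≤ δ} := by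
    constructor
    · intro d hd hne hdir δ hδ
      refine ⟨hC.dirSupClosed (fun y hy => (hd hy).1) hne hdir hδ, ?_⟩
      obtain ⟨y, hy⟩ := hne
      exact (hd hy).2.trans (hδ.1 hy)
    · intro y
      obtain ⟨z, hz, hz'⟩ := hC.isCofinal (max x y)
      exact ⟨z, ⟨hz, (le_max_left _ _).trans hz'⟩, (le_max_right _ _).trans hz'⟩
  obtain ⟨δ, h1, h2, h3⟩ := hE hC'
  exact ⟨δ, ⟨h1, h3⟩, h2⟩

/-- The splitting form of diamond: pairwise disjoint sets `Z r`, one for every sequence `r` of
natural numbers, and one sequence of functions which guesses every function into the natural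
numbers on every `Z r` and on every stationary set of levels. -/
theorem splitting {L : Type} [LinearOrder L] {P : Partn (Sig L) ℕ} (hP : StronglyNice P) :
    ∃ (Z : (ℕ → ℕ) → Set (Sig L)) (d : Sig L → Sig L → ℕ),
      (∀ r r', r ≠ r' → Disjoint (Z r) (Z r')) ∧
      ∀ (r : ℕ → ℕ) (g : Sig L → ℕ) (E : Set (Set.Iio (ω₁ : Ordinal.{0}))), IsStationary E →
        ¬ IsNonstationary {t | t ∈ Z r ∧ lev t ∈ E ∧ ∀ s < t, d t s = g s} := by
  classical
  refine ⟨fun r => {t | ω ≤ t.len ∧ ∀ n : ℕ, ∀ s < t, s.len = n → (guess P t s).unpair.2 = r n},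
    fun t s => (guess P t s).unpair.1, ?_, ?_⟩
  · intro r r' hne
    rw [Set.disjoint_left]
    rintro t ⟨h1, h2⟩ ⟨-, h3⟩
    apply hne
    funext n
    have hn : (n : Ordinal.{0}) < t.len := (Ordinal.natCast_lt_omega0 n).trans_le h1
    have hlt : t.restrict n hn.le < t := Sig.lt_iff.2 ⟨Sig.restrict_le _ _ _, hn⟩
    rw [← h2 n _ hlt rfl, ← h3 n _ hlt rfl]
  · intro r g E hE hns
    let f : Sig L → ℕ := fun s => Nat.pair (g s)
      (if h : ∃ n : ℕ, s.len = n then r h.choose else 0)
    obtain ⟨S, hS, -, -, hmain⟩ := hP f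
    refine hmain _ (stationary_inter hE ⟨ω, Ordinal.omega0_lt_omega_one⟩) (hns.mono ?_)
    rintro t ⟨htS, htE, htω⟩
    refine ⟨⟨htω, ?_⟩, htE, ?_⟩
    · intro n s hs hsn
      rw [guess_eq P f hS htS hs]
      have h : ∃ m : ℕ, s.len = m := ⟨n, hsn⟩
      simp only [f, h, dif_pos, Nat.unpair_pair]
      have h4 : (h.choose : Ordinal.{0}) = n := by rw [← h.choose_spec, hsn]
      have h5 : h.choose = n := by exact_mod_cast h4
      rw [h5]
    · intro s hs
      dsimp only
      rw [guess_eq P f hS htS hs]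
      simp only [f, Nat.unpair_pair]

/-- The usual diamond with sets follows. -/
theorem diamond_of_splitting {L : Type} [LinearOrder L] {Z : (ℕ → ℕ) → Set (Sig L)}
    {d : Sig L → Sig L → ℕ}
    (h : ∀ (r : ℕ → ℕ) (g : Sig L → ℕ) (E : Set (Set.Iio (ω₁ : Ordinal.{0}))), IsStationary E →
        ¬ IsNonstationary {t | t ∈ Z r ∧ lev t ∈ E ∧ ∀ s < t, d t s = g s}) :
    Diamond (Sig L) := by
  classical
  refine ⟨fun t => {s | s < t ∧ d t s = 1}, fun t s hs => hs.1, ?_⟩
  intro X hns
  have : Nonempty (Set.Iio (ω₁ : Ordinal.{0})) := ⟨⟨0, Ordinal.omega_pos 1⟩⟩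
  refine h 0 (fun s => if s ∈ X then 1 else 0) Set.univ (isStationary_univ_iff.2 this)
    (hns.mono ?_)
  rintro t ⟨-, -, ht⟩
  change X ∩ Set.Iio t = {s | s < t ∧ d t s = 1}
  ext s
  constructor
  · rintro ⟨hsX, hst⟩
    exact ⟨hst, by rw [ht s hst, if_pos hsX]⟩
  · rintro ⟨hst, hs⟩
    refine ⟨?_, hst⟩
    rw [ht s hst] at hs
    by_contra hcon
    rw [if_neg hcon] at hs
    exact absurd hs (by norm_num)

end Pool.Agent.Y972.SQ
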