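import Pool.Agent.H883R3.Tree

/-!
The tree of strictly increasing maps from countable ordinals into an arbitrary linear order with
range bounded above, and its subtrees selected by a function on the nodes: such a subtree is
positive on every stationary set of levels.
-/

namespace Pool.Agent.Y972.SQ

open Ordinal Pool.Agent.H883R3

/-- The underlying set of the tree `sigma L`: strictly increasing maps from a countable ordinal
`len` to the linear order `L`, with range bounded above. -/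
structure Sig (L : Type) [LinearOrder L] : Type 1 where
  len : Ordinal.{0}
  len_lt : len < ω₁
  toFun : Set.Iio len → L
  strictMono : StrictMono toFun
  bdd : BddAbove (Set.range toFun)

variable {L : Type} [LinearOrder L]

namespace Sig

theorem ext' {s t : Sig L} (h : s.len = t.len)
    (h' : ∀ x (hx : x < s.len), s.toFun ⟨x, hx⟩ = t.toFun ⟨x, h ▸ hx⟩) : s = t := by
  obtain ⟨ls, hls, fs, ms, bs⟩ := s
  obtain ⟨lt, hlt, ft, mt, bt⟩ := t
  dsimp only at h
  subst h
  have : fs = ft := by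
    funext x
    exact h' x.1 x.2
  subst this
  rfl

/-- The order: extension of functions. -/
instance : PartialOrder (Sig L) where
  le s t := ∃ h : s.len ≤ t.len, ∀ x (hx : x < s.len),
    t.toFun ⟨x, lt_of_lt_of_le hx h⟩ = s.toFun ⟨x, hx⟩
  le_refl s := ⟨le_rfl, fun _ _ => rfl⟩
  le_trans := by
    rintro a b c ⟨h1, h2⟩ ⟨h3, h4⟩
    exact ⟨h1.trans h3, fun x hx => (h4 x (lt_of_lt_of_le hx h1)).trans (h2 x hx)⟩
  le_antisymm := by
    rintro a b ⟨h1, h2⟩ ⟨h3, h4⟩
    exact ext' (le_antisymm h1 h3) (fun x hx => (h2 x hx).symm)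

theorem le_def {s t : Sig L} : s ≤ t ↔ ∃ h : s.len ≤ t.len, ∀ x (hx : x < s.len),
    t.toFun ⟨x, lt_of_lt_of_le hx h⟩ = s.toFun ⟨x, hx⟩ := Iff.rfl

theorem lt_iff {s t : Sig L} : s < t ↔ s ≤ t ∧ s.len < t.len := by
  constructor
  · intro h
    refine ⟨h.le, lt_of_le_of_ne h.le.1 ?_⟩
    intro he
    apply h.ne
    exact ext' he (fun x hx => (h.le.2 x hx).symm)
  · rintro ⟨h1, h2⟩
    refine lt_of_le_of_ne h1 ?_
    rintro rfl
    exact lt_irrefl _ h2

/-- Restriction to an initial segment. -/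
def restrict (t : Sig L) (β : Ordinal.{0}) (h : β ≤ t.len) : Sig L where
  len := β
  len_lt := lt_of_le_of_lt h t.len_lt
  toFun x := t.toFun ⟨x.1, lt_of_lt_of_le x.2 h⟩
  strictMono := fun _ _ hab => t.strictMono hab
  bdd := by
    obtain ⟨r, hr⟩ := t.bdd
    refine ⟨r, ?_⟩
    rintro _ ⟨x, rfl⟩
    exact hr ⟨_, rfl⟩

theorem restrict_le (t : Sig L) (β : Ordinal.{0}) (h : β ≤ t.len) : t.restrict β h ≤ t :=
  ⟨h, fun _ _ => rfl⟩

theorem le_of_le_le {a b t : Sig L} (ha : a ≤ t) (hb : b ≤ t) (h : a.len ≤ b.len) : a ≤ b := by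
  refine ⟨h, fun x hx => ?_⟩
  rw [← hb.2 x (lt_of_lt_of_le hx h), ← ha.2 x hx]

theorem eq_of_le_le {a b t : Sig L} (ha : a ≤ t) (hb : b ≤ t) (h : a.len = b.len) : a = b :=
  le_antisymm (le_of_le_le ha hb h.le) (le_of_le_le hb ha h.ge)

/-- The set of strict predecessors of `t` is isomorphic to the ordinal `t.len`. -/
def iioIso (t : Sig L) :
    (fun a b : Set.Iio t => a < b) ≃r (fun a b : Set.Iio t.len => a < b) where
  toFun s := ⟨s.1.len, (lt_iff.1 s.2).2⟩
  invFun β := ⟨t.restrict β.1 β.2.le, lt_iff.2 ⟨t.restrict_le _ _, β.2⟩⟩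
  left_inv := by
    rintro ⟨s, hs⟩
    apply Subtype.ext
    have hle : s.len ≤ t.len := (lt_iff.1 hs).2.le
    exact le_antisymm (le_of_le_le (t.restrict_le s.len hle) (le_of_lt hs) le_rfl)
      (le_of_le_le (le_of_lt hs) (t.restrict_le s.len hle) le_rfl)
  right_inv := by
    rintro ⟨β, hβ⟩
    rfl
  map_rel_iff' := by
    rintro ⟨a, ha⟩ ⟨b, hb⟩
    change a.len < b.len ↔ a < b
    constructor
    · intro h
      exact lt_iff.2 ⟨le_of_le_le (le_of_lt ha) (le_of_lt hb) h.le, h⟩
    · intro h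
      exact (lt_iff.1 h).2

instance : TreeOrder (Sig L) where
  wo t := (iioIso t).toRelEmbedding.isWellOrder

theorem ht_eq (t : Sig L) : ht t = Ordinal.lift.{1} t.len := by
  have := TreeOrder.wo t
  have h1 := (iioIso t).ordinalType_congr
  have h2 := type_lt_Iio t.len
  unfold ht
  exact h1.trans h2

theorem mem_succs {s t : Sig L} : s ∈ Succs t ↔ t < s ∧ s.len = t.len + 1 := by
  change (t < s ∧ ht s = ht t + 1) ↔ _
  rw [ht_eq, ht_eq, show Ordinal.lift.{1} t.len + 1 = Ordinal.lift.{1} (t.len + 1) by simp,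
    Ordinal.lift_inj]

/-- Append the value `q` at the end of `t`. -/
noncomputable def snoc (t : Sig L) (q : L) (hq : ∀ x, t.toFun x < q) : Sig L where
  len := t.len + 1
  len_lt := by
    have h := (Cardinal.isSuccLimit_omega 1).succ_lt t.len_lt
    simpa [Order.succ_eq_add_one] using h
  toFun x := by
    classical
    exact if h : x.1 < t.len then t.toFun ⟨x.1, h⟩ else q
  strictMono := by
    classical
    intro a b hab
    by_cases hb : b.1 < t.len
    · have ha : a.1 < t.len := lt_trans hab hb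
      simp only [ha, hb, dif_pos]
      exact t.strictMono hab
    · have hb' : b.1 = t.len := le_antisymm (Order.lt_add_one_iff.1 b.2) (not_lt.1 hb)
      have ha : a.1 < t.len := lt_of_lt_of_eq hab hb'
      simp only [ha, hb, dif_pos, dif_neg, not_false_eq_true]
      exact hq _
  bdd := by
    classical
    refine ⟨q, ?_⟩
    rintro _ ⟨x, rfl⟩
    dsimp only
    split_ifs with h
    · exact (hq _).le
    · exact le_rfl

theorem snoc_apply_last (t : Sig L) (q : L) (hq : ∀ x, t.toFun x < q)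
    (h : t.len < (t.snoc q hq).len) : (t.snoc q hq).toFun ⟨t.len, h⟩ = q := by
  simp [snoc]

theorem le_snoc (t : Sig L) (q : L) (hq : ∀ x, t.toFun x < q) : t ≤ t.snoc q hq := by
  refine ⟨(lt_add_one t.len).le, fun x hx => ?_⟩
  simp [snoc, hx]

theorem snoc_le_bound (t : Sig L) (q : L) (hq : ∀ x, t.toFun x < q) :
    ∀ x, (t.snoc q hq).toFun x ≤ q := by
  classical
  intro x
  by_cases h : x.1 < t.len
  · have : (t.snoc q hq).toFun x = t.toFun ⟨x.1, h⟩ := by simp [snoc, h]
    rw [this]; exact (hq _).le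
  · have : (t.snoc q hq).toFun x = q := by simp [snoc, h]
    rw [this]

theorem snoc_mem_succs (t : Sig L) (q : L) (hq : ∀ x, t.toFun x < q) :
    t.snoc q hq ∈ Succs t :=
  mem_succs.2 ⟨lt_iff.2 ⟨t.le_snoc q hq, lt_add_one _⟩, rfl⟩

/-- The union of an increasing chain with bounded values. -/
theorem exists_union (t : ℕ → Sig L) (ht' : ∀ n, t n < t (n + 1)) (r : L)
    (hr : ∀ n x, (t n).toFun x ≤ r) :
    ∃ u : Sig L, (∀ n, t n < u) ∧ (∀ s, s < u → ∃ n, s < t n) ∧
      (∀ n, ∀ q : L, (∀ m, n ≤ m → ∀ x, (t m).toFun x ≤ q) → ∀ x, u.toFun x ≤ q) ∧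
      u.len = ⨆ n, (t n).len := by
  classical
  have hmono : Monotone t := monotone_nat_of_le_succ (fun n => (ht' n).le)
  have hbdd : BddAbove (Set.range (fun n => (t n).len)) := Ordinal.bddAbove_of_small
  have hmem : ∀ x : Set.Iio (⨆ n, (t n).len), ∃ n, x.1 < (t n).len := by
    intro x
    exact Ordinal.lt_iSup_iff.1 x.2
  let N : Set.Iio (⨆ n, (t n).len) → ℕ := fun x => Classical.choose (hmem x)
  have hN : ∀ x, x.1 < (t (N x)).len := fun x => Classical.choose_spec (hmem x)
  have hcoh : ∀ (m n : ℕ) (x : Ordinal) (hm : x < (t m).len) (hn : x < (t n).len),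
      (t m).toFun ⟨x, hm⟩ = (t n).toFun ⟨x, hn⟩ := by
    intro m n x hm hn
    rcases le_total m n with h | h
    · exact ((hmono h).2 x hm).symm
    · exact (hmono h).2 x hn
  let u : Sig L :=
    { len := ⨆ n, (t n).len
      len_lt := Ordinal.iSup_lt_omega_one (fun n => (t n).len_lt)
      toFun := fun x => (t (N x)).toFun ⟨x.1, hN x⟩
      strictMono := by
        intro a b hab
        have hb : a.1 < (t (N b)).len := lt_trans hab (hN b)
        dsimp only
        rw [hcoh (N a) (N b) a.1 (hN a) hb]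
        exact (t (N b)).strictMono hab
      bdd := by
        refine ⟨r, ?_⟩
        rintro _ ⟨x, rfl⟩
        exact hr _ _ }
  have hle : ∀ n, t n ≤ u := by
    intro n
    refine ⟨le_ciSup hbdd n, fun x hx => ?_⟩
    exact hcoh _ _ _ _ _
  refine ⟨u, fun n => lt_of_lt_of_le (ht' n) (hle (n + 1)), ?_, ?_, rfl⟩
  · intro s hs
    obtain ⟨n, hn⟩ := Ordinal.lt_iSup_iff.1 (lt_iff.1 hs).2
    exact ⟨n, lt_iff.2 ⟨le_of_le_le hs.le (hle n) hn.le, hn⟩⟩
  · intro n q hq x
    let m := max n (N x)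
    have hx : x.1 < (t m).len := lt_of_lt_of_le (hN x) (hmono (le_max_right _ _)).1
    have : u.toFun x = (t m).toFun ⟨x.1, hx⟩ := hcoh _ _ _ _ _
    rw [this]
    exact hq m (le_max_left _ _) _

theorem isSuccLimit_ht {u : Sig L} (t : ℕ → Sig L) (h1 : ∀ n, t n < u)
    (h2 : ∀ s, s < u → ∃ n, s < t n) : Order.IsSuccLimit (ht u) := by
  refine ⟨?_, ?_⟩
  · intro hm
    exact absurd (ht_lt (h1 0)) hm.not_lt
  · intro β hβ
    obtain ⟨s, hs, hsβ⟩ := exists_ht_eq hβ.lt
    obtain ⟨n, hn⟩ := h2 s hs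
    refine hβ.2 (c := ht (t n)) ?_ (ht_lt (h1 n))
    rw [← hsβ]; exact ht_lt hn

/-- The empty sequence. -/
def empty (L : Type) [LinearOrder L] [Nonempty L] : Sig L where
  len := 0
  len_lt := (Ordinal.omega_pos 1)
  toFun := fun x => absurd (Set.mem_Iio.1 x.2) not_lt_zero
  strictMono := fun x => absurd (Set.mem_Iio.1 x.2) not_lt_zero
  bdd := ⟨Classical.arbitrary L, by rintro _ ⟨x, rfl⟩; exact absurd (Set.mem_Iio.1 x.2) not_lt_zero⟩

theorem isMin_empty [Nonempty L] : IsMin (Sig.empty L) := by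
  intro s hs
  have h0 : (0 : Ordinal) ≤ s.len := zero_le
  exact ⟨h0, fun x hx => absurd (show x < 0 from hx) not_lt_zero⟩

end Sig

/-! ### Countability -/

theorem countable_Iio_ord {γ : Ordinal.{0}} (h : γ < ω₁) : (Set.Iio γ).Countable := by
  have h1 : γ.card ≤ Cardinal.aleph0 := by
    rw [← Cardinal.lt_aleph_one_iff, ← Cardinal.lt_ord]
    simpa using h
  rw [← Cardinal.le_aleph0_iff_set_countable, Cardinal.mk_Iio_ordinal]
  exact Cardinal.lift_le_aleph0.2 h1

theorem add_one_lt {γ : Ordinal.{0}} (h : γ < ω₁) : γ + 1 < ω₁ := by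
  have h := (Cardinal.isSuccLimit_omega 1).succ_lt h
  simpa [Order.succ_eq_add_one] using h

theorem countable_Iic_sig (t : Sig L) : (Set.Iic t).Countable := by
  have h1 : (Set.Iio (t.len + 1)).Countable := countable_Iio_ord (add_one_lt t.len_lt)
  have h2 : Set.MapsTo (fun s : Sig L => s.len) (Set.Iic t) (Set.Iio (t.len + 1)) := by
    intro s hs
    exact Order.lt_add_one_iff.2 hs.1
  refine Set.MapsTo.countable_of_injOn h2 ?_ h1
  intro a ha b hb hab
  exact Sig.eq_of_le_le ha hb hab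

/-- Countably many countable ordinals are bounded by a countable ordinal. -/
theorem exists_bound {ι : Type 1} (C : Set ι) (hC : C.Countable) (f : ι → Ordinal.{0})
    (hf : ∀ i ∈ C, f i < ω₁) : ∃ β < ω₁, ∀ i ∈ C, f i < β := by
  have := hC.to_subtype
  refine ⟨(⨆ i : C, f i) + 1, add_one_lt (Ordinal.iSup_lt_omega_one (fun i => hf i.1 i.2)), ?_⟩
  intro i hi
  rw [Order.lt_add_one_iff]
  have hb : BddAbove (Set.range (fun i : C => f i)) := by
    have : Small.{0} C := inferInstance
    exact Ordinal.bddAbove_of_small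
  exact le_ciSup hb ⟨i, hi⟩

end Pool.Agent.Y972.SQ
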