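import Pool.Agent.Y972.SQ.Core

/-!
Successor-partitions into arbitrarily many pieces and their selected subtrees; the subtrees of
`sigma L` selected by a function are positive on every stationary set of levels.
-/

namespace Pool.Agent.Y972.SQ

open Ordinal Pool.Agent.H883R3

universe u v

section General

variable {T : Type u} [PartialOrder T] [TreeOrder T] {I : Type v}

/-- A successor-partition with pieces indexed by `I`. -/
structure Partn (T : Type u) [PartialOrder T] [TreeOrder T] (I : Type v) where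
  part : T → I → Set T
  union_eq : ∀ t, (⋃ i, part t i) = Succs t
  disj : ∀ t i j, i ≠ j → Disjoint (part t i) (part t j)

/-- `S` is the subtree `T(P,f)`. -/
structure IsSel (P : Partn T I) (f : T → I) (S : Set T) : Prop where
  lower : ∀ s ∈ S, ∀ t, t ≤ s → t ∈ S
  root : ∀ t, IsMin t → t ∈ S
  succ : ∀ t ∈ S, Succs t ∩ S = P.part t (f t)
  limit : ∀ t, Order.IsSuccLimit (ht t) → (∀ s, s < t → s ∈ S) → t ∈ S

/-- The explicit description of `T(P,f)`. -/
def sel (P : Partn T I) (f : T → I) : Set T :=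
  {t | ∀ s s', s' ≤ t → s' ∈ Succs s → s' ∈ P.part s (f s)}

theorem part_subset (P : Partn T I) (t : T) (i : I) : P.part t i ⊆ Succs t := by
  rw [← P.union_eq t]
  exact Set.subset_iUnion _ i

theorem isSel_sel (Q : Partn T I) (f : T → I) : IsSel Q f (sel Q f) where
  lower := fun s hs t hts u u' hu' hs' => hs u u' (le_trans hu' hts) hs'
  root := by
    intro t ht' s s' h1 h2
    exact absurd (lt_of_lt_of_le h2.1 h1) (fun h => (h.not_ge (ht' h.le)))
  succ := by
    intro t htS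
    apply Set.Subset.antisymm
    · rintro s' ⟨h1, h2⟩
      exact h2 t s' le_rfl h1
    · intro s' hs'
      have hs1 : s' ∈ Succs t := part_subset Q t _ hs'
      refine ⟨hs1, ?_⟩
      intro u u' hu' hu2
      rcases lt_or_eq_of_le hu' with h | h
      · exact htS u u' (le_of_lt_succs hs1 h) hu2
      · subst h
        have : t = u := eq_of_mem_succs hs1 hu2
        subst this
        exact hs'
  limit := by
    intro t hlim hall s s' h1 h2
    rcases lt_or_eq_of_le h1 with h | h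
    · exact hall s' h s s' le_rfl h2
    · subst h
      exfalso
      have := hlim.isSuccPrelimit
      have h3 := h2.2
      rw [h3] at this
      exact Order.not_isSuccPrelimit_succ (ht s) this

theorem isSel_unique (Q : Partn T I) (f : T → I) {S S' : Set T}
    (h : IsSel Q f S) (h' : IsSel Q f S') : S' = S := by
  have key : ∀ t : T, t ∈ S' ↔ t ∈ S := by
    intro t0
    refine (wf (T := T)).induction (C := fun t => t ∈ S' ↔ t ∈ S) t0 ?_
    · intro t ih
      rcases Ordinal.zero_or_succ_or_isSuccLimit (ht t) with h0 | ⟨β, hβ⟩ | hl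
      · have hmin : IsMin t := by
          intro s hs
          rcases lt_or_eq_of_le hs with h1 | h1
          · have := ht_lt h1
            rw [h0] at this
            exact absurd this (not_lt.2 zero_le)
          · exact le_of_eq h1.symm
        exact ⟨fun _ => h.root t hmin, fun _ => h'.root t hmin⟩
      · obtain ⟨s, hs, hsβ⟩ := exists_ht_eq (t := t) (β := β)
          (by rw [← hβ]; exact Order.lt_succ β)
        have hsucc : t ∈ Succs s := ⟨hs, by rw [hsβ, ← hβ]; try rfl⟩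
        constructor
        · intro ht'
          have hs' : s ∈ S' := h'.lower t ht' s hs.le
          have hsS : s ∈ S := (ih s hs).1 hs'
          have h1 : t ∈ Q.part s (f s) := by
            rw [← h'.succ s hs']; exact ⟨hsucc, ht'⟩
          rw [← h.succ s hsS] at h1
          exact h1.2
        · intro ht'
          have hs' : s ∈ S := h.lower t ht' s hs.le
          have hsS : s ∈ S' := (ih s hs).2 hs'
          have h1 : t ∈ Q.part s (f s) := by
            rw [← h.succ s hs']; exact ⟨hsucc, ht'⟩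
          rw [← h'.succ s hsS] at h1
          exact h1.2
      · constructor
        · intro ht'
          exact h.limit t hl (fun s hs => (ih s hs).1 (h'.lower t ht' s hs.le))
        · intro ht'
          exact h'.limit t hl (fun s hs => (ih s hs).2 (h.lower t ht' s hs.le))
  ext t; exact key t

/-- Every strict predecessor `s` of `t` has an immediate successor below or equal to `t`. -/
theorem exists_succs {s t : T} (hst : s < t) : ∃ s', s' ≤ t ∧ s' ∈ Succs s := by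
  have hlt : ht s + 1 ≤ ht t := Order.add_one_le_of_lt (ht_lt hst)
  rcases lt_or_eq_of_le hlt with h1 | h1
  · obtain ⟨s', hs't, hs'⟩ := exists_ht_eq h1
    refine ⟨s', hs't.le, ?_, hs'⟩
    rcases trichotomy hst hs't with h2 | h2 | h2
    · exact h2
    · exfalso; rw [h2] at hs'
      exact absurd hs' (ne_of_lt (lt_add_one _))
    · exfalso
      have := ht_lt h2
      rw [hs'] at this
      exact absurd this (not_lt.2 (lt_add_one _).le)
  · exact ⟨t, le_rfl, hst, h1.symm⟩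

theorem succs_unique {s t a b : T} (ha : a ∈ Succs s) (hb : b ∈ Succs s) (hat : a ≤ t)
    (hbt : b ≤ t) : a = b := by
  have hab : ht a = ht b := ha.2.trans hb.2.symm
  rcases lt_or_eq_of_le hat with h1 | h1
  · rcases lt_or_eq_of_le hbt with h2 | h2
    · exact eq_of_ht_eq h1 h2 hab
    · subst h2
      exact absurd hab (ne_of_lt (ht_lt h1))
  · subst h1
    rcases lt_or_eq_of_le hbt with h2 | h2
    · exact absurd hab.symm (ne_of_lt (ht_lt h2))
    · exact h2.symm

open Classical in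
/-- The guess at `t`: the index of the piece through which the branch below `t` leaves `s`. -/
noncomputable def guess [Nonempty I] (P : Partn T I) (t s : T) : I :=
  if h : ∃ i, ∃ s', s' ≤ t ∧ s' ∈ P.part s i then Classical.choose h else Classical.arbitrary I

theorem guess_eq [Nonempty I] (P : Partn T I) (f : T → I) {S : Set T} (hS : IsSel P f S) {t s : T}
    (htS : t ∈ S) (hst : s < t) : guess P t s = f s := by
  obtain ⟨s', hs't, hs'⟩ := exists_succs hst
  have hsS : s ∈ S := hS.lower t htS s hst.le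
  have hs'S : s' ∈ S := hS.lower t htS s' hs't
  have h1 : s' ∈ P.part s (f s) := by
    rw [← hS.succ s hsS]; exact ⟨hs', hs'S⟩
  have h : ∃ i, ∃ s', s' ≤ t ∧ s' ∈ P.part s i := ⟨f s, s', hs't, h1⟩
  have h2 : guess P t s = Classical.choose h := by
    unfold guess
    rw [dif_pos h]
  obtain ⟨s'', hs''t, hs''⟩ := Classical.choose_spec h
  rw [← h2] at hs''
  have h3 : s'' = s' := succs_unique (part_subset P s _ hs'') hs' hs''t hs't
  subst h3
  by_contra hne
  exact Set.disjoint_left.1 (P.disj s _ _ hne) hs'' h1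

end General

variable {L : Type} [LinearOrder L] {I : Type v}

/-- The successor-partition of `sigma L` given by a colouring of `L`: split the successors of `t`
according to the colour of the last value. -/
def colPart (c : L → I) : Partn (Sig L) I where
  part t i := {s | s ∈ Succs t ∧ ∃ h : t.len < s.len, c (s.toFun ⟨t.len, h⟩) = i}
  union_eq t := by
    ext s
    simp only [Set.mem_iUnion, Set.mem_ofPred_eq]
    constructor
    · rintro ⟨i, h, -⟩; exact h
    · intro h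
      have hl : t.len < s.len := (Sig.lt_iff.1 h.1).2
      exact ⟨_, h, hl, rfl⟩
  disj t i j hij := by
    rw [Set.disjoint_left]
    rintro s ⟨_, h1, h2⟩ ⟨_, h3, h4⟩
    exact hij (h2.symm.trans h4)

/-- The colouring `c` of `L` is rich on `D`: between any two points of `D` there is a point of `D`
of every colour, and `D` has at least two points. -/
def Rich (D : Set L) (c : L → I) : Prop :=
  (∃ a ∈ D, ∃ b ∈ D, a < b) ∧
    ∀ a ∈ D, ∀ b ∈ D, a < b → ∀ i, ∃ x ∈ D, a < x ∧ x < b ∧ c x = i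

variable {D : Set L} {c : L → I} {f : Sig L → I} {S : Set (Sig L)}

theorem exists_mem_part (hc : Rich D c) (hS : IsSel (colPart c) f S) (t : Sig L) (htS : t ∈ S)
    {r q : L} (hrD : r ∈ D) (hqD : q ∈ D) (hr : ∀ x, t.toFun x ≤ r) (hrq : r < q) :
    ∃ t' ∈ S, t < t' ∧ ∃ r' ∈ D, r' < q ∧ ∀ x, t'.toFun x ≤ r' := by
  obtain ⟨x, hxD, h1, h2, h3⟩ := hc.2 r hrD q hqD hrq (f t)
  have hq : ∀ y, t.toFun y < x := fun y => lt_of_le_of_lt (hr y) h1
  have hmem : t.snoc x hq ∈ (colPart c).part t (f t) := by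
    refine ⟨t.snoc_mem_succs x hq, lt_add_one t.len, ?_⟩
    have h4 := t.snoc_apply_last x hq (lt_add_one t.len)
    exact h4.symm ▸ h3
  rw [← hS.succ t htS] at hmem
  exact ⟨t.snoc x hq, hmem.2, hmem.1.1, x, hxD, h2, t.snoc_le_bound x hq⟩

/-- The limit of an increasing chain of nodes of `S`. -/
theorem exists_limit (hS : IsSel (colPart c) f S) (t : ℕ → Sig L) (htS : ∀ n, t n ∈ S)
    (ht' : ∀ n, t n < t (n + 1)) (r : L) (hr : ∀ n x, (t n).toFun x ≤ r) :
    ∃ u ∈ S, (∀ n, t n < u) ∧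
      (∀ n, ∀ q : L, (∀ m, n ≤ m → ∀ x, (t m).toFun x ≤ q) → ∀ x, u.toFun x ≤ q) ∧
      u.len = ⨆ n, (t n).len := by
  obtain ⟨u, hu1, hu2, hu3, hu4⟩ := Sig.exists_union t ht' r hr
  refine ⟨u, ?_, hu1, hu3, hu4⟩
  refine hS.limit u (Sig.isSuccLimit_ht _ hu1 hu2) ?_
  intro s hs
  obtain ⟨n, hn⟩ := hu2 s hs
  exact hS.lower _ (htS n) s hn.le

theorem exists_enum {A : Set Ordinal.{0}} (hA : A.Countable) (hne : A.Nonempty) :
    ∃ e : ℕ → Ordinal.{0}, Set.range e = A := by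
  obtain ⟨e, he⟩ := hA.exists_eq_range hne
  exact ⟨e, he.symm⟩

/-- Nodes of `S` have extensions in `S` of arbitrarily large countable height below any larger
bound. -/
theorem exists_extend (hc : Rich D c) (hS : IsSel (colPart c) f S) (α : Ordinal.{0}) :
    α < ω₁ → ∀ t ∈ S, ∀ r ∈ D, ∀ q ∈ D, (∀ x, t.toFun x ≤ r) → r < q →
    ∃ t' ∈ S, t ≤ t' ∧ α ≤ t'.len ∧ ∃ r' ∈ D, r' < q ∧ ∀ x, t'.toFun x ≤ r' := by
  induction α using WellFoundedLT.induction with
  | _ α ih =>
    intro hα t htS r hrD q hqD hr hrq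
    rcases eq_or_ne α 0 with h0 | h0
    · exact ⟨t, htS, le_rfl, by rw [h0]; exact zero_le, r, hrD, hrq, hr⟩
    have hne : (Set.Iio α).Nonempty := ⟨0, pos_iff_ne_zero.2 h0⟩
    obtain ⟨e, he⟩ := exists_enum (countable_Iio_ord hα) hne
    have heα : ∀ n, e n < α := fun n => by
      have : e n ∈ Set.Iio α := he ▸ Set.mem_range_self n
      exact this
    obtain ⟨q', hq'D, hrq', hq'q, -⟩ := hc.2 r hrD q hqD hrq (c r)
    let St : Type 1 := {p : Sig L × L // p.1 ∈ S ∧ p.2 ∈ D ∧ (∀ x, p.1.toFun x ≤ p.2) ∧ p.2 < q'}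
    have hstep : ∀ (n : ℕ) (p : St), ∃ p' : St, p.1.1 < p'.1.1 ∧ e n ≤ p'.1.1.len := by
      rintro n ⟨⟨t, r⟩, h1, h2, h3, h4⟩
      obtain ⟨t1, ht1S, ht1, ha1, r1, hr1D, hr1, hb1⟩ :=
        ih (e n) (heα n) ((heα n).trans hα) t h1 r h2 q' hq'D h3 h4
      obtain ⟨t2, ht2S, ht2, r2, hr2D, hr2, hb2⟩ :=
        exists_mem_part hc hS t1 ht1S hr1D hq'D hb1 hr1
      exact ⟨⟨⟨t2, r2⟩, ht2S, hr2D, hb2, hr2⟩, lt_of_le_of_lt ht1 ht2,
        ha1.trans (Sig.lt_iff.1 ht2).2.le⟩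
    choose nxt hnxt using hstep
    let p : ℕ → St := fun n => Nat.rec ⟨⟨t, r⟩, htS, hrD, hr, hrq'⟩ (fun n p => nxt n p) n
    have hp : ∀ n, p (n + 1) = nxt n (p n) := fun n => rfl
    obtain ⟨u, huS, hu1, hu2, hu3⟩ := exists_limit hS (fun n => (p n).1.1) (fun n => (p n).2.1)
      (fun n => by rw [hp]; exact (hnxt n (p n)).1) q'
      (fun n x => ((p n).2.2.2.1 x).trans (p n).2.2.2.2.le)
    refine ⟨u, huS, (hu1 0).le, ?_, q', hq'D, hq'q, ?_⟩
    · by_contra hcon
      rw [not_le] at hcon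
      have : u.len ∈ Set.range e := he ▸ hcon
      obtain ⟨n, hn⟩ := this
      have h1 : e n ≤ (p (n + 1)).1.1.len := by rw [hp]; exact (hnxt n (p n)).2
      have h2 : (p (n + 1)).1.1.len < u.len := (Sig.lt_iff.1 (hu1 (n + 1))).2
      exact absurd (h1.trans_lt h2) (by rw [hn]; exact lt_irrefl _)
    · exact hu2 0 q' (fun m _ x => ((p m).2.2.2.1 x).trans (p m).2.2.2.2.le)

/-- States of the fusion: a node of `S`, a bound of its values, and a larger point. -/
def State (S : Set (Sig L)) (D : Set L) : Type 1 :=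
  {p : Sig L × L × L // p.1 ∈ S ∧ p.2.1 ∈ D ∧ p.2.2 ∈ D ∧ (∀ x, p.1.toFun x ≤ p.2.1) ∧
    p.2.1 < p.2.2}

/-- One step of the fusion. -/
theorem exists_step (hc : Rich D c) (hS : IsSel (colPart c) f S) (X : Set (Sig L)) (hX : X ⊆ S)
    (p : State S D) (α : Ordinal.{0}) (hα : α < ω₁) :
    ∃ p' : State S D, p'.1.2.2 < p.1.2.2 ∧ p.1.1 < p'.1.1 ∧ α ≤ p'.1.1.len ∧
      ((∃ s ∈ X, p.1.1 ≤ s ∧ ∃ r ∈ D, r < p.1.2.2 ∧ ∀ x, s.toFun x ≤ r) →
        ∃ s ∈ X, s < p'.1.1) := by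
  obtain ⟨⟨t, r, q⟩, h1, h2, h3, h4, h5⟩ := p
  dsimp only at h1 h2 h3 h4 h5 ⊢
  -- it is enough to start from a node `s ≥ t`
  have key : ∀ s ∈ S, t ≤ s → (∃ r ∈ D, r < q ∧ ∀ x, s.toFun x ≤ r) →
      ∃ p' : State S D, p'.1.2.2 < q ∧ s < p'.1.1 ∧ α ≤ p'.1.1.len := by
    rintro s hsS - ⟨r0, hr0D, hr0, hs0⟩
    obtain ⟨t1, ht1S, ht1, r1, hr1D, hr1, hb1⟩ := exists_mem_part hc hS s hsS hr0D h3 hs0 hr0
    obtain ⟨t2, ht2S, ht2, ha2, r2, hr2D, hr2, hb2⟩ :=
      exists_extend hc hS α hα t1 ht1S r1 hr1D q h3 hb1 hr1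
    obtain ⟨q', hq'D, hr2q', hq'q, -⟩ := hc.2 r2 hr2D q h3 hr2 (c r)
    exact ⟨⟨⟨t2, r2, q'⟩, ht2S, hr2D, hq'D, hb2, hr2q'⟩, hq'q, lt_of_lt_of_le ht1 ht2, ha2⟩
  by_cases hcase : ∃ s ∈ X, t ≤ s ∧ ∃ r ∈ D, r < q ∧ ∀ x, s.toFun x ≤ r
  · obtain ⟨s, hsX, hts, hs⟩ := hcase
    obtain ⟨p', hp1, hp2, hp3⟩ := key s (hX hsX) hts hs
    exact ⟨p', hp1, lt_of_le_of_lt hts hp2, hp3, fun _ => ⟨s, hsX, hp2⟩⟩
  · obtain ⟨p', hp1, hp2, hp3⟩ := key t h1 le_rfl ⟨r, h2, h5, h4⟩
    exact ⟨p', hp1, hp2, hp3, fun h => absurd h hcase⟩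

/-! ### The countable closures -/

/-- The `m`-th stage of the closure of `p₀` under `nxt v k p α` for nodes `v` below `p` and
ordinals `α < γ`. -/
def stage (p₀ : State S D) (nxt : Sig L → ℕ → State S D → Ordinal.{0} → State S D)
    (γ : Ordinal.{0}) : ℕ → Set (State S D)
  | 0 => {p₀}
  | m + 1 => ⋃ p ∈ stage p₀ nxt γ m, ⋃ v ∈ Set.Iic p.1.1, ⋃ k : ℕ, ⋃ α ∈ Set.Iio γ,
      {nxt v k p α}

/-- The closure of `p₀`. -/
def closure (p₀ : State S D) (nxt : Sig L → ℕ → State S D → Ordinal.{0} → State S D)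
    (γ : Ordinal.{0}) : Set (State S D) := ⋃ m, stage p₀ nxt γ m

variable {p₀ : State S D} {nxt : Sig L → ℕ → State S D → Ordinal.{0} → State S D}

theorem closure_init (γ : Ordinal.{0}) : p₀ ∈ closure p₀ nxt γ :=
  Set.mem_iUnion.2 ⟨0, rfl⟩

theorem closure_step {γ : Ordinal.{0}} {p : State S D} (hp : p ∈ closure p₀ nxt γ) {v : Sig L}
    (hv : v ≤ p.1.1) (k : ℕ) {α : Ordinal.{0}} (hα : α < γ) :
    nxt v k p α ∈ closure p₀ nxt γ := by
  obtain ⟨m, hm⟩ := Set.mem_iUnion.1 hp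
  refine Set.mem_iUnion.2 ⟨m + 1, ?_⟩
  simp only [stage, Set.mem_iUnion, Set.mem_singleton_iff]
  exact ⟨p, hm, v, hv, k, α, hα, rfl⟩

theorem stage_mono {γ γ' : Ordinal.{0}} (h : γ ≤ γ') (m : ℕ) :
    stage p₀ nxt γ m ⊆ stage p₀ nxt γ' m := by
  induction m with
  | zero => exact subset_rfl
  | succ m ih =>
    intro p hp
    simp only [stage, Set.mem_iUnion, Set.mem_singleton_iff] at hp ⊢
    obtain ⟨p', hp', v, hv, k, α, hα, rfl⟩ := hp
    exact ⟨p', ih hp', v, hv, k, α, lt_of_lt_of_le hα h, rfl⟩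

theorem closure_mono {γ γ' : Ordinal.{0}} (h : γ ≤ γ') :
    closure p₀ nxt γ ⊆ closure p₀ nxt γ' :=
  Set.iUnion_mono (fun m => stage_mono h m)

theorem closure_countable {γ : Ordinal.{0}} (hγ : γ < ω₁) : (closure p₀ nxt γ).Countable := by
  refine Set.countable_iUnion (fun m => ?_)
  induction m with
  | zero => exact Set.countable_singleton _
  | succ m ih =>
    refine ih.biUnion (fun p _ => ?_)
    refine (countable_Iic_sig _).biUnion (fun v _ => ?_)
    refine Set.countable_iUnion (fun k => ?_)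
    refine (countable_Iio_ord hγ).biUnion (fun α _ => ?_)
    exact Set.countable_singleton _

/-- The set of good levels. -/
def good (p₀ : State S D) (nxt : Sig L → ℕ → State S D → Ordinal.{0} → State S D) :
    Set (Set.Iio (ω₁ : Ordinal.{0})) :=
  {δ | δ.1 ≠ 0 ∧ (∀ γ < δ.1, γ + 1 < δ.1) ∧ ∀ γ < δ.1, ∀ p ∈ closure p₀ nxt γ, p.1.1.len < δ.1}

theorem isClub_good : IsClub (good p₀ nxt) := by
  constructor
  · intro d hd hne _ δ hδ
    have hlt : ∀ γ < δ.1, ∃ δ' ∈ d, γ < δ'.1 := by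
      intro γ hγ
      have hγ' : (⟨γ, lt_trans hγ δ.2⟩ : Set.Iio (ω₁ : Ordinal.{0})) < δ := hγ
      obtain ⟨δ', h1, h2⟩ := (lt_isLUB_iff hδ).1 hγ'
      exact ⟨δ', h1, h2⟩
    obtain ⟨δ0, hδ0⟩ := hne
    have hle : ∀ δ' ∈ d, δ'.1 ≤ δ.1 := fun δ' h => hδ.1 h
    refine ⟨?_, ?_, ?_⟩
    · intro h0
      have := hle δ0 hδ0
      rw [h0] at this
      exact (hd hδ0).1 (le_antisymm this zero_le)
    · intro γ hγ
      obtain ⟨δ', h1, h2⟩ := hlt γ hγ
      exact lt_of_lt_of_le ((hd h1).2.1 γ h2) (hle δ' h1)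
    · intro γ hγ p hp
      obtain ⟨δ', h1, h2⟩ := hlt γ hγ
      exact lt_of_lt_of_le ((hd h1).2.2 γ h2 p hp) (hle δ' h1)
  · intro x
    have hex : ∀ γ : Set.Iio (ω₁ : Ordinal.{0}), ∃ β : Set.Iio (ω₁ : Ordinal.{0}),
        γ.1 + 1 < β.1 ∧ ∀ p ∈ closure p₀ nxt γ.1, p.1.1.len < β.1 := by
      intro γ
      obtain ⟨β, hβ, h1⟩ := exists_bound (closure p₀ nxt γ.1) (closure_countable γ.2)
        (fun p => p.1.1.len) (fun p _ => p.1.1.len_lt)
      refine ⟨⟨max β (γ.1 + 1 + 1), ?_⟩, ?_, ?_⟩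
      · exact max_lt hβ (add_one_lt (add_one_lt γ.2))
      · exact lt_of_lt_of_le (lt_add_one _) (le_max_right _ _)
      · exact fun p hp => lt_of_lt_of_le (h1 p hp) (le_max_left _ _)
    choose g hg1 hg2 using hex
    let γ : ℕ → Set.Iio (ω₁ : Ordinal.{0}) := fun n => Nat.rec x (fun _ y => g y) n
    have hγ : ∀ n, γ (n + 1) = g (γ n) := fun n => rfl
    have hbdd : BddAbove (Set.range (fun n => (γ n).1)) := Ordinal.bddAbove_of_small
    have hle : ∀ n, (γ n).1 ≤ ⨆ n, (γ n).1 := fun n => le_ciSup hbdd n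
    have hlt : ∀ n, (γ n).1 + 1 < (γ (n + 1)).1 := fun n => by rw [hγ]; exact hg1 _
    refine ⟨⟨⨆ n, (γ n).1, Ordinal.iSup_lt_omega_one (fun n => (γ n).2)⟩, ⟨?_, ?_, ?_⟩, ?_⟩
    · have h1 := (hlt 0).trans_le (hle 1)
      intro h0
      dsimp only at h0
      rw [h0] at h1
      exact not_lt_zero h1
    · intro β hβ
      obtain ⟨n, hn⟩ := Ordinal.lt_iSup_iff.1 hβ
      dsimp only
      refine lt_of_lt_of_le ?_ (hle (n + 1))
      refine lt_of_le_of_lt ?_ (hlt n)
      exact add_le_add_left hn.le 1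
    · intro β hβ p hp
      obtain ⟨n, hn⟩ := Ordinal.lt_iSup_iff.1 hβ
      refine lt_of_lt_of_le (hg2 (γ n) p (closure_mono hn.le hp)) (hle (n + 1))
    · exact hle 0

/-- The level of a node as an element of `ω₁`. -/
def lev (t : Sig L) : Set.Iio (ω₁ : Ordinal.{0}) := ⟨t.len, t.len_lt⟩

/-- The main theorem: a selected subtree is not nonstationary on any stationary set of levels. -/
theorem not_nonstationary (hc : Rich D c) (hS : IsSel (colPart c) f S)
    (E : Set (Set.Iio (ω₁ : Ordinal.{0}))) (hE : IsStationary E) :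
    ¬ IsNonstationary {t | t ∈ S ∧ lev t ∈ E} := by
  classical
  rintro ⟨F, hF, hsp⟩
  have hcol : ∀ v : Sig L, ∃ d : Sig L → ℕ, ∀ x, x ∈ {t | t ∈ S ∧ lev t ∈ E} → F x = v →
      ∀ y, y ∈ {t | t ∈ S ∧ lev t ∈ E} → F y = v → x < y → d x ≠ d y := by
    intro v
    obtain ⟨d, hd⟩ := isSpecial_iff.1 (hsp v)
    exact ⟨d, fun x hx hx' y hy hy' => hd x ⟨hx, hx'⟩ y ⟨hy, hy'⟩⟩
  choose d hd using hcol
  -- the step function
  let X : Sig L → ℕ → Set (Sig L) := fun v k =>
    {x | (x ∈ S ∧ lev x ∈ E) ∧ F x = v ∧ d v x = k}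
  have hstep : ∀ (v : Sig L) (k : ℕ) (p : State S D) (α : Ordinal.{0}), ∃ p' : State S D,
      α < ω₁ → p'.1.2.2 < p.1.2.2 ∧ p.1.1 < p'.1.1 ∧ α ≤ p'.1.1.len ∧
      ((∃ s ∈ X v k, p.1.1 ≤ s ∧ ∃ r ∈ D, r < p.1.2.2 ∧ ∀ x, s.toFun x ≤ r) →
        ∃ s ∈ X v k, s < p'.1.1) := by
    intro v k p α
    by_cases hα : α < ω₁
    · obtain ⟨p', h⟩ := exists_step hc hS (X v k) (fun x hx => hx.1.1) p α hα
      exact ⟨p', fun _ => h⟩
    · exact ⟨p, fun h => absurd h hα⟩
  choose nxt hnxt using hstep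
  obtain ⟨a, haD, b, hbD, hab⟩ := hc.1
  have : Nonempty L := ⟨a⟩
  let p₀ : State S D := ⟨⟨Sig.empty L, a, b⟩, hS.root _ Sig.isMin_empty, haD, hbD,
    fun x => absurd (show x.1 < 0 from x.2) not_lt_zero, hab⟩
  obtain ⟨δ, hδE, hδ0, hδ1, hδ2⟩ := hE (isClub_good (p₀ := p₀) (nxt := nxt))
  have hne : (Set.Iio δ.1).Nonempty := ⟨0, pos_iff_ne_zero.2 hδ0⟩
  obtain ⟨e, he⟩ := exists_enum (countable_Iio_ord δ.2) hne
  have heδ : ∀ n, e n < δ.1 := fun n => by
    have : e n ∈ Set.Iio δ.1 := he ▸ Set.mem_range_self n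
    exact this
  -- the node handled at stage `n`
  let w : ℕ → State S D → Sig L := fun n p =>
    if h : e n.unpair.1 < p.1.1.len then p.1.1.restrict (e n.unpair.1) h.le else p.1.1
  have hw : ∀ n p, w n p ≤ p.1.1 := by
    intro n p
    by_cases h : e n.unpair.1 < p.1.1.len
    · simp only [w, h, dif_pos]
      exact Sig.restrict_le _ _ _
    · simp only [w, h, dif_neg, not_false_eq_true]
      exact le_rfl
  let p : ℕ → State S D := fun n =>
    Nat.rec p₀ (fun n p => nxt (w n p) (n.unpair.2.unpair.1) p (e n)) n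
  have hp : ∀ n, p (n + 1) = nxt (w n (p n)) (n.unpair.2.unpair.1) (p n) (e n) := fun n => rfl
  have hfacts := fun n => hnxt (w n (p n)) (n.unpair.2.unpair.1) (p n) (e n)
    ((heδ n).trans δ.2)
  have hq : ∀ n, (p (n + 1)).1.2.2 < (p n).1.2.2 := fun n => by rw [hp]; exact (hfacts n).1
  have ht' : ∀ n, (p n).1.1 < (p (n + 1)).1.1 := fun n => by rw [hp]; exact (hfacts n).2.1
  have hlen : ∀ n, e n ≤ (p (n + 1)).1.1.len := fun n => by rw [hp]; exact (hfacts n).2.2.1
  have hanti : Antitone (fun n => (p n).1.2.2) := antitone_nat_of_succ_le (fun n => (hq n).le)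
  have hbound : ∀ m n, m ≤ n → ∀ x, (p n).1.1.toFun x ≤ (p m).1.2.2 := by
    intro m n hmn x
    exact ((p n).2.2.2.2.1 x).trans ((p n).2.2.2.2.2.le.trans (hanti hmn))
  -- all the heights stay below `δ`
  have hin : ∀ n, ∃ γ < δ.1, p n ∈ closure p₀ nxt γ := by
    intro n
    induction n with
    | zero => exact ⟨0, pos_iff_ne_zero.2 hδ0, closure_init _⟩
    | succ n ih =>
      obtain ⟨γ, hγ, hpγ⟩ := ih
      refine ⟨max γ (e n + 1), max_lt hγ (hδ1 _ (heδ n)), ?_⟩
      rw [hp]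
      refine closure_step (closure_mono (le_max_left _ _) hpγ) (hw n (p n)) _ ?_
      exact lt_of_lt_of_le (lt_add_one _) (le_max_right _ _)
  have hltδ : ∀ n, (p n).1.1.len < δ.1 := by
    intro n
    obtain ⟨γ, hγ, hpγ⟩ := hin n
    exact hδ2 γ hγ _ hpγ
  obtain ⟨u, huS, hu1, hu2, hu3⟩ := exists_limit hS (fun n => (p n).1.1) (fun n => (p n).2.1)
    ht' ((p 0).1.2.2) (fun n x => hbound 0 n (Nat.zero_le _) x)
  have hulen : u.len = δ.1 := by
    apply le_antisymm
    · rw [hu3]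
      exact ciSup_le' (fun n => (hltδ n).le)
    · by_contra hcon
      rw [not_le] at hcon
      have : u.len ∈ Set.range e := he ▸ hcon
      obtain ⟨n, hn⟩ := this
      have h2 : (p (n + 1)).1.1.len < u.len := (Sig.lt_iff.1 (hu1 (n + 1))).2
      exact absurd ((hlen n).trans_lt h2) (by rw [hn]; exact lt_irrefl _)
  have hlev : lev u = δ := Subtype.ext hulen
  have huX : u ∈ {t | t ∈ S ∧ lev t ∈ E} := ⟨huS, by rw [hlev]; exact hδE⟩
  have humin : ¬ IsMin u := fun hm => (hu1 0).not_ge (hm (hu1 0).le)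
  have hFu : F u < u := hF u huX humin
  -- find the stage
  have hvlen : (F u).len < δ.1 := by rw [← hulen]; exact (Sig.lt_iff.1 hFu).2
  obtain ⟨j, hj⟩ : (F u).len ∈ Set.range e := he ▸ hvlen
  have hsup : (F u).len < ⨆ n, (p n).1.1.len := by rw [← hu3]; exact (Sig.lt_iff.1 hFu).2
  obtain ⟨m, hm⟩ := Ordinal.lt_iSup_iff.1 hsup
  have hmono : Monotone (fun n => (p n).1.1) := monotone_nat_of_le_succ (fun n => (ht' n).le)
  set n := Nat.pair j (Nat.pair (d (F u) u) m) with hn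
  have hmn : m ≤ n := (Nat.right_le_pair _ _).trans (Nat.right_le_pair _ _)
  have hn1 : n.unpair.1 = j := by rw [hn, Nat.unpair_pair]
  have hn2 : n.unpair.2.unpair.1 = d (F u) u := by rw [hn, Nat.unpair_pair, Nat.unpair_pair]
  have hlt : e n.unpair.1 < (p n).1.1.len := by
    rw [hn1, hj]
    exact lt_of_lt_of_le hm (hmono hmn).1
  have hwn : w n (p n) = F u := by
    have h1 : w n (p n) = (p n).1.1.restrict (e n.unpair.1) hlt.le := by
      simp only [w, hlt, dif_pos]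
    rw [h1]
    refine Sig.eq_of_le_le (t := u) ((Sig.restrict_le _ _ _).trans (hu1 n).le) hFu.le ?_
    change e n.unpair.1 = _
    rw [hn1, hj]
  have hfin := (hfacts n).2.2.2
  rw [hwn, hn2] at hfin
  obtain ⟨s, hsX, hs⟩ := hfin ⟨u, ⟨huX, rfl, rfl⟩, (hu1 n).le, (p (n + 1)).1.2.2,
    (p (n + 1)).2.2.2.1, hq n, hu2 (n + 1) _ (fun m hm x => hbound (n + 1) m hm x)⟩
  have hsu : s < u := by
    refine lt_of_lt_of_le hs ?_
    have h1 := (hu1 (n + 1)).le
    rw [hp, hwn, hn2] at h1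
    exact h1
  exact hd (F u) s hsX.1 hsX.2.1 u huX rfl hsu hsX.2.2

end Pool.Agent.Y972.SQ
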